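import Pool.Agent.X234.TA.Main

set_option autoImplicit false

/-!
# MP_c103f8_lc, Q1: the answer is negative

For every temperature-2 tile system with finite tile set `T`, every function `r` on assemblies and
all concentrations `ρ n` such that `r` of the random terminal assembly is `n` with probability at
least `1 - δ`, where `δ < 1/2`, and every `ε < 1 / (|T| + 2 ^ |T|)`, the random terminal assembly
for `ρ n` has fewer than `n ^ ε` tiles with probability less than `1 - δ` for infinitely many `n`,
and indeed for all `n` outside a set of density zero.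
-/

namespace Pool.Agent.Results.MP_c103f8_lc.SmallAssembliesImpossible

open Pool.Agent.X234.TA Filter
open scoped NNReal ENNReal

open Classical in
theorem result (g : Rule) (S : TileSystem) (r : Assembly → ℕ) (ρ : ℕ → Tile → ℝ≥0) (δ : ℝ)
    (hδ : δ < 1 / 2)
    (hr : ∀ n, ENNReal.ofReal (1 - δ) ≤ Pr g S (ρ n) (fun α => r α = n)) (ε : ℝ) (hε : 0 ≤ ε)
    (hε' : ε * (S.T.card + 2 ^ S.T.card) < 1) :
    (∃ᶠ n : ℕ in atTop, Pr g S (ρ n) (fun α => ((dom α).ncard : ℝ) < (n : ℝ) ^ ε) <
      ENNReal.ofReal (1 - δ)) ∧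
    Tendsto (fun K : ℕ => (((Finset.range K).filter fun n : ℕ => ENNReal.ofReal (1 - δ) ≤
      Pr g S (ρ n) (fun α => ((dom α).ncard : ℝ) < (n : ℝ) ^ ε)).card : ℝ) / K) atTop
      (nhds 0) :=
  ⟨infinitely_many r ρ δ hδ hr ε hε hε', density r ρ δ hδ hr ε hε hε'⟩

end Pool.Agent.Results.MP_c103f8_lc.SmallAssembliesImpossible
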